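import Pool.Agent.Helper97.Ku.GoalsG

/-! # Packet CHK: check names in the quotient -/

set_option autoImplicit false

namespace Pool.Agent.Helper97.Ku.PkCHK

universe u

open BSet

variable {Ω : Type u} [LinearOrder Ω] [WellFoundedLT Ω] {L : Type u} [CompleteBooleanAlgebra L]

theorem ck_eq (a : Ω) : (ck a : BSet L) =
    BSet.mk (Set.Iio a) (fun b => ck b.1) (fun _ => ⊤) := by
  unfold ck
  rw [WellFounded.fix_eq]

theorem mem_ck (a : Ω) (x : BSet L) : x.mem (ck a) = ⨆ b : Ω, ⨆ _ : b < a, x.eq (ck b) := by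
  rw [ck_eq, mem_mk, iSup_subtype]
  simp only [top_inf_eq]
  rfl

theorem mem_ckΩ (x : BSet L) : x.mem (ckΩ Ω L) = ⨆ b : Ω, x.eq (ck b) := by
  unfold ckΩ
  rw [mem_mk]
  simp only [top_inf_eq]

theorem ck_mem_of_lt {a b : Ω} (h : a < b) : (ck a : BSet L).mem (ck b) = ⊤ := by
  rw [eq_top_iff, mem_ck]
  refine le_trans ?_ (le_iSup _ a)
  refine le_trans ?_ (le_iSup _ h)
  rw [eq_refl]

theorem ck_mem_self (a : Ω) : (ck a : BSet L).mem (ck a) = ⊥ := by
  induction a using WellFoundedLT.induction with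
  | ind a ih =>
    rw [eq_bot_iff, mem_ck]
    refine iSup_le fun b => iSup_le fun hb => ?_
    refine le_trans (eq_le_himp (ck a) (ck b) (ck b)) ?_
    rw [ck_mem_of_lt hb, ih b hb, top_himp]

theorem ck_eq_lt {a b : Ω} (h : a < b) : (ck b : BSet L).eq (ck a) = ⊥ := by
  rw [eq_bot_iff]
  refine le_trans (eq_le_himp (ck b) (ck a) (ck a)) ?_
  rw [ck_mem_of_lt h, ck_mem_self, top_himp]

theorem ck_eq_ck (a b : Ω) : (ck a : BSet L).eq (ck b) = bo (a = b) := by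
  rcases lt_trichotomy a b with h | h | h
  · rw [bo_false (ne_of_lt h), eq_comm', ck_eq_lt h]
  · rw [bo_true h, h, eq_refl]
  · rw [bo_false (ne_of_gt h), ck_eq_lt h]

theorem ck_mem_ck (a b : Ω) : (ck a : BSet L).mem (ck b) = bo (a < b) := by
  by_cases h : a < b
  · rw [bo_true h, ck_mem_of_lt h]
  · rw [bo_false h, mem_ck, eq_bot_iff]
    refine iSup_le fun c => iSup_le fun hc => ?_
    rw [ck_eq_ck, bo_false]
    rintro rfl
    exact h hc

/-- Sets of check names. -/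
def IsCk (A : Ω → Prop) (S : BSet L) : Prop :=
  (∀ b c, c < b → A b → A c) ∧ ∀ x : BSet L, x.mem S = ⨆ b : Ω, ⨆ _ : A b, x.eq (ck b)

theorem isCk_ck (a : Ω) : IsCk (fun b => b < a) (ck a : BSet L) :=
  ⟨fun _ _ h1 h2 => h1.trans h2, fun x => mem_ck a x⟩

theorem isCk_Ω : IsCk (fun _ : Ω => True) (ckΩ Ω L) :=
  ⟨fun _ _ _ h2 => h2, fun x => by rw [mem_ckΩ]; simp only [iSup_pos]⟩

theorem trans_ck (b : Ω) (y z : BSet L) : y.mem (ck b) ⊓ z.mem y ≤ z.mem (ck b) := by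
  rw [mem_ck b y, iSup_inf_eq]
  refine iSup_le fun c => ?_
  rw [iSup_inf_eq]
  refine iSup_le fun hc => ?_
  refine le_trans (mem_congr_right y (ck c) z) ?_
  rw [mem_ck, mem_ck]
  refine iSup_le fun d => iSup_le fun hd => ?_
  exact le_trans (le_iSup (fun _ : d < b => z.eq (ck d)) (hd.trans hc))
    (le_iSup (fun d => ⨆ _ : d < b, z.eq (ck d)) d)

theorem tra1 {A : Ω → Prop} {S : BSet L} (h : IsCk A S) (x y : BSet L) :
    x.mem S ⊓ y.mem x ≤ y.mem S := by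
  rw [h.2 x, iSup_inf_eq]
  refine iSup_le fun b => ?_
  rw [iSup_inf_eq]
  refine iSup_le fun hb => ?_
  refine le_trans (mem_congr_right x (ck b) y) ?_
  rw [mem_ck, h.2]
  refine iSup_le fun c => iSup_le fun hc => ?_
  exact le_trans (le_iSup (fun _ : A c => y.eq (ck c)) (h.1 b c hc hb))
    (le_iSup (fun c => ⨆ _ : A c, y.eq (ck c)) c)

theorem tra2 {A : Ω → Prop} {S : BSet L} (h : IsCk A S) (x y z : BSet L) :
    x.mem S ⊓ (y.mem x ⊓ z.mem y) ≤ z.mem x := by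
  rw [h.2 x, iSup_inf_eq]
  refine iSup_le fun b => ?_
  rw [iSup_inf_eq]
  refine iSup_le fun hb => ?_
  have h1 : x.eq (ck b) ⊓ (y.mem x ⊓ z.mem y) ≤ z.mem (ck b) := by
    rw [← inf_assoc]
    exact le_trans (inf_le_inf_right _ (mem_congr_right x (ck b) y)) (trans_ck b y z)
  refine le_trans (le_inf inf_le_left h1) ?_
  rw [eq_comm']
  exact mem_congr_right (ck b) x z

theorem isOrd {A : Ω → Prop} {S : BSet L} (h : IsCk A S) (U : UF L) :
    IsOrd NM.E (NM.mk U S) := by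
  constructor
  · intro x hx y hy
    obtain ⟨x, rfl⟩ := NM.mk_surj U x
    obtain ⟨y, rfl⟩ := NM.mk_surj U y
    rw [NM.mk_E] at hx hy ⊢
    exact U.mono (tra1 h x y) (U.inf hx hy)
  · intro x hx y hy z hz
    obtain ⟨x, rfl⟩ := NM.mk_surj U x
    obtain ⟨y, rfl⟩ := NM.mk_surj U y
    obtain ⟨z, rfl⟩ := NM.mk_surj U z
    rw [NM.mk_E] at hx hy hz ⊢
    exact U.mono (tra2 h x y z) (U.inf hx (U.inf hy hz))

theorem full_iSup (hF : G_FULL.{u}) (U : UF L) (φ : BSet L → L) (h : Ext φ)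
    (hU : U.mem (⨆ y, φ y)) : ∃ y, U.mem (φ y) := by
  obtain ⟨⟨x, _, hx⟩, _⟩ := hF L φ (fun _ => ⊤) h (Ext.const ⊤) ⟨BSet.mk PEmpty PEmpty.elim PEmpty.elim, rfl⟩
  refine ⟨x, ?_⟩
  rw [hx]
  simpa only [top_inf_eq] using hU

theorem lim (G : Grd Ω) (x : BSet L) :
    x.mem (ck G.w0) ≤ ⨆ y, (y.mem (ck G.w0) ⊓ x.mem y) := by
  rw [mem_ck]
  refine iSup_le fun i => iSup_le fun hi => ?_
  obtain ⟨j, hij, hj⟩ := G.w0_lim i hi
  refine le_trans ?_ (le_iSup _ (ck j))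
  rw [ck_mem_of_lt hj, top_inf_eq, mem_ck]
  exact le_trans (le_iSup (fun _ : i < j => x.eq (ck i)) hij)
    (le_iSup (fun i => ⨆ _ : i < j, x.eq (ck i)) i)

theorem fin (G : Grd Ω) (x : BSet L) :
    x.mem (ck G.w0) ≤ (⨅ y : BSet L, (y.mem x)ᶜ) ⊔
      ⨆ y : BSet L, (y.mem x ⊓ ⨅ z : BSet L, (z.mem x ⇨ (z.mem y ⊔ z.eq y))) := by
  rw [mem_ck]
  refine iSup_le fun i => iSup_le fun hi => ?_
  rcases G.w0_fin i hi with h | ⟨j, hj, hmax⟩
  · refine le_trans (le_iInf fun y => ?_) le_sup_left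
    rw [le_compl_iff_disjoint_right, disjoint_iff_inf_le]
    refine le_trans (mem_congr_right x (ck i) y) ?_
    rw [mem_ck]
    refine iSup_le fun c => iSup_le fun hc => ?_
    rw [h] at hc
    exact absurd hc (not_lt.2 (G.c0_le c))
  · refine le_trans ?_ le_sup_right
    refine le_trans ?_ (le_iSup _ (ck j))
    refine le_inf ?_ (le_iInf fun z => ?_)
    · have h1 := mem_congr_right (ck i) x (ck j : BSet L)
      rw [ck_mem_of_lt hj, inf_top_eq, eq_comm'] at h1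
      exact h1
    · rw [le_himp_iff]
      refine le_trans (mem_congr_right x (ck i) z) ?_
      rw [mem_ck]
      refine iSup_le fun k => iSup_le fun hk => ?_
      rcases (hmax k hk).lt_or_eq with h | h
      · refine le_trans ?_ le_sup_left
        rw [mem_ck]
        exact le_trans (le_iSup (fun _ : k < j => z.eq (ck k)) h)
          (le_iSup (fun k => ⨆ _ : k < j, z.eq (ck k)) k)
      · rw [h]
        exact le_sup_right

theorem isOmega (hF : G_FULL.{u}) (G : Grd Ω) (U : UF L) :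
    IsOmega NM.E (NM.mk U (ck G.w0)) := by
  refine ⟨isOrd (isCk_ck G.w0) U, ⟨NM.mk U (ck G.c0), ?_⟩, ?_, ?_⟩
  · rw [NM.mk_E, ck_mem_of_lt G.w0_pos]
    exact U.top
  · intro x hx
    obtain ⟨x, rfl⟩ := NM.mk_surj U x
    rw [NM.mk_E] at hx
    obtain ⟨y, hy⟩ := full_iSup hF U (fun y => y.mem (ck G.w0) ⊓ x.mem y)
      ((Ext.mem_left _).inf (Ext.mem_right _)) (U.mono (lim G x) hx)
    rw [U.inf_iff] at hy
    exact ⟨NM.mk U y, (NM.mk_E U _ _).2 hy.1, (NM.mk_E U _ _).2 hy.2⟩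
  · intro x hx
    obtain ⟨x, rfl⟩ := NM.mk_surj U x
    rw [NM.mk_E] at hx
    rcases U.sup_iff.1 (U.mono (fin G x) hx) with h | h
    · left
      intro y hy
      obtain ⟨y, rfl⟩ := NM.mk_surj U y
      rw [NM.mk_E] at hy
      exact U.compl.1 (U.mono (iInf_le _ y) h) hy
    · right
      obtain ⟨y, hy⟩ := full_iSup hF U
        (fun y => y.mem x ⊓ ⨅ z : BSet L, (z.mem x ⇨ (z.mem y ⊔ z.eq y)))
        ((Ext.mem_left _).inf (Ext.iInf fun z =>
          (Ext.const _).himp ((Ext.mem_right _).sup (Ext.eq_right _)))) h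
      rw [U.inf_iff] at hy
      refine ⟨NM.mk U y, (NM.mk_E U _ _).2 hy.1, fun z hz => ?_⟩
      obtain ⟨z, rfl⟩ := NM.mk_surj U z
      rw [NM.mk_E] at hz
      have h2 := U.himp_iff.1 (U.mono (iInf_le _ z) hy.2) hz
      rcases U.sup_iff.1 h2 with h3 | h3
      · exact Or.inl ((NM.mk_E U _ _).2 h3)
      · exact Or.inr ((NM.mk_eq U _ _).2 h3)

theorem chk : G_FULL.{u} → G_CHK.{u} := fun hF Ω _ _ L _ G U =>
  ⟨fun a x => mem_ck a x, fun x => mem_ckΩ x, fun a b => ck_eq_ck a b,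
    fun a b => ck_mem_ck a b, isOrd isCk_Ω U, isOmega hF G U⟩

end Pool.Agent.Helper97.Ku.PkCHK
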