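import Pool.Agent.Helper97.Ku.GoalsC

/-! # Packet DN: the ground structure and closure properties of `Dn` -/

set_option autoImplicit false

namespace Pool.Agent.Helper97.Ku.PkDN

open Set Ordinal Cardinal

theorem iio_countable {a : Ordinal.{0}} (ha : a < ω_ 1) : (Iio a).Countable := by
  have h : Ordinal.card a < ℵ₁ := by
    rw [← Cardinal.lt_ord, Cardinal.ord_aleph]
    exact ha
  rw [← Cardinal.le_aleph0_iff_set_countable, Cardinal.mk_Iio_ordinal, Cardinal.lift_le_aleph0]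
  exact Cardinal.lt_aleph_one_iff.1 h

theorem om_iio_countable (a : Om) : (Iio a).Countable := by
  have h := iio_countable a.2
  refine (h.preimage (f := fun b : Om => b.1) Subtype.val_injective).mono fun b hb => ?_
  exact hb

theorem om_bounded (S : Set Om) (hS : S.Countable) : ∃ a : Om, ∀ b ∈ S, b < a := by
  have : Countable S := hS.to_subtype
  have h1 : (⨆ b : S, (b.1.1 : Ordinal.{0})) < ω_ 1 :=
    Ordinal.iSup_lt_omega_one fun b => b.1.2
  have h2 := (isSuccLimit_omega (1 : Ordinal.{0})).succ_lt h1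
  refine ⟨⟨_, h2⟩, fun b hb => ?_⟩
  show (b.1 : Ordinal.{0}) < _
  rw [Order.lt_succ_iff]
  exact Ordinal.le_iSup (fun b : S => (b.1.1 : Ordinal.{0})) ⟨b, hb⟩

theorem mk_om : #Om = ℵ₁ := by
  show #(Iio (ω_ 1 : Ordinal.{0})) = ℵ₁
  rw [Cardinal.mk_Iio_ordinal]
  simp

theorem grd : G_GRD := by
  have hlim := isSuccLimit_omega (1 : Ordinal.{0})
  have h0 : (0 : Ordinal.{0}) < ω_ 1 := omega_pos 1
  have hw : (ω : Ordinal.{0}) < ω_ 1 := omega0_lt_omega_one
  have h1 : (1 : Ordinal.{0}) < ω_ 1 := one_lt_omega0.trans hw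
  have hcard : #(Om × Om) = #Om := by
    rw [Cardinal.mk_prod, Cardinal.lift_id, mk_om]
    exact Cardinal.mul_eq_self (Cardinal.aleph0_le_aleph 1)
  obtain ⟨e⟩ := Cardinal.eq.1 hcard
  refine ⟨{ pi := e
            c0 := ⟨0, h0⟩
            c1 := ⟨1, h1⟩
            w0 := ⟨ω, hw⟩
            c0_le := ?_
            lt_c1 := ?_
            w0_pos := ?_
            w0_lim := ?_
            w0_fin := ?_
            bd := ?_
            nomax := ?_ }⟩
  · intro i
    exact zero_le (a := (i.1 : Ordinal.{0}))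
  · intro i
    constructor
    · intro h
      apply Subtype.ext
      exact Order.lt_one_iff.1 (show (i.1 : Ordinal.{0}) < 1 from h)
    · rintro rfl
      exact (zero_lt_one : (0 : Ordinal.{0}) < 1)
  · exact (omega0_pos : (0 : Ordinal.{0}) < ω)
  · intro i hi
    have hi' : (i.1 : Ordinal.{0}) < ω := hi
    have h2 : Order.succ (i.1 : Ordinal.{0}) < ω := isSuccLimit_omega0.succ_lt hi'
    exact ⟨⟨_, h2.trans hw⟩, Order.lt_succ (i.1 : Ordinal.{0}), h2⟩
  · intro i hi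
    have hi' : (i.1 : Ordinal.{0}) < ω := hi
    obtain ⟨n, hn⟩ := lt_omega0.1 hi'
    rcases n with _ | n
    · left
      apply Subtype.ext
      rw [hn]
      simp
    · right
      have h2 : ((n : ℕ) : Ordinal.{0}) < i.1 := by
        rw [hn]
        exact_mod_cast Nat.lt_succ_self n
      refine ⟨⟨n, h2.trans i.2⟩, h2, fun k hk => ?_⟩
      have hk' : (k.1 : Ordinal.{0}) < i.1 := hk
      rw [hn] at hk'
      obtain ⟨m, hm⟩ := lt_omega0.1 (hk'.trans (natCast_lt_omega0 (n + 1)))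
      show (k.1 : Ordinal.{0}) ≤ n
      rw [hm] at hk' ⊢
      have : m < n + 1 := by exact_mod_cast hk'
      exact_mod_cast Nat.lt_succ_iff.1 this
  · intro i α
    have h2 : ((fun j : Om => e (i, j)) '' Iio α).Countable := (om_iio_countable α).image _
    obtain ⟨a, ha⟩ := om_bounded _ h2
    exact ⟨a, fun j hj => ha _ ⟨j, hj, rfl⟩⟩
  · intro i
    exact ⟨⟨_, hlim.succ_lt i.2⟩, Order.lt_succ (i.1 : Ordinal.{0})⟩

theorem dn_am {D : Set Coord} {p q : Cond} (hq : q ≤ p.rs D) :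
    ∃ r : Cond, r ≤ p ∧ r ≤ q.rs D ∧ r.rs D = q.rs D := by
  have h1 : q.rs D ≤ p.rs D := by
    have := Cond.rs_mono hq D
    rwa [Cond.rs_rs_of_subset p (Subset.refl D)] at this
  have h2 := Cond.supp_rs_subset q D
  exact ⟨am p (q.rs D) (cmp_of_le h1 h2), am_le_left _, am_le_right _, am_rs h1 h2⟩

theorem dn_compl {D : Set Coord} {b : BA} (hb : Dn D b) : Dn D bᶜ := by
  intro p hp
  rw [RO.mem_compl]
  intro q hq hqb
  obtain ⟨r, hr, hr', _⟩ := dn_am hq
  exact RO.not_mem_compl (RO.lower hr' (hb q hqb)) (RO.lower hr hp)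

theorem dn_inf {D : Set Coord} {a b : BA} (ha : Dn D a) (hb : Dn D b) : Dn D (a ⊓ b) :=
  fun p hp => RO.mem_inf.2 ⟨ha p (RO.mem_inf.1 hp).1, hb p (RO.mem_inf.1 hp).2⟩

theorem dn_iInf {D : Set Coord} {I : Type 1} {b : I → BA} (hb : ∀ i, Dn D (b i)) :
    Dn D (⨅ i, b i) :=
  fun p hp => RO.mem_iInf.2 fun i => hb i p (RO.mem_iInf.1 hp i)

theorem dn_iSup {D : Set Coord} {I : Type 1} {b : I → BA} (hb : ∀ i, Dn D (b i)) :
    Dn D (⨆ i, b i) := by
  intro p hp
  rw [RO.mem_iSup] at hp ⊢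
  intro q hq
  obtain ⟨r, hr, _, hr2⟩ := dn_am hq
  obtain ⟨s, hs, i, hi⟩ := hp r hr
  have h3 : s ≤ q.rs D := by
    refine (hs.trans ?_)
    rw [← hr2]
    exact Cond.le_rs r D
  obtain ⟨t, ht, ht', _⟩ := dn_am (p := q) (q := s) h3
  exact ⟨t, ht, i, RO.lower ht' (hb i s hi)⟩

theorem dn_sup {D : Set Coord} {a b : BA} (ha : Dn D a) (hb : Dn D b) : Dn D (a ⊔ b) := by
  have h : a ⊔ b = (aᶜ ⊓ bᶜ)ᶜ := by rw [compl_inf, compl_compl, compl_compl]
  rw [h]
  exact dn_compl (dn_inf (dn_compl ha) (dn_compl hb))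

theorem dn_himp {D : Set Coord} {a b : BA} (ha : Dn D a) (hb : Dn D b) : Dn D (a ⇨ b) := by
  rw [himp_eq]
  exact dn_sup hb (dn_compl ha)

theorem dn_bo (D : Set Coord) (P : Prop) : Dn D (bo P) := by
  intro p hp
  by_cases h : P
  · rw [bo_true h]
    exact RO.mem_top _
  · rw [bo_false h] at hp
    exact absurd hp (RO.not_mem_bot p)

theorem dn : G_DN :=
  ⟨fun _ _ => dn_compl, fun _ _ _ => dn_inf, fun _ _ _ => dn_sup, fun _ _ _ => dn_himp,
    fun _ _ _ => dn_iInf, fun _ _ _ => dn_iSup, dn_bo,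
    fun _ _ _ h hb p hp => RO.lower (Cond.rs_le_rs p h) (hb p hp),
    fun D _ p hb => ⟨hb p, RO.lower (Cond.le_rs p D)⟩⟩

end Pool.Agent.Helper97.Ku.PkDN
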