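import Pool.Agent.Helper97.Ku.GoalsD

/-! # Packet KC: Kurepa trees have certificates -/

set_option autoImplicit false

namespace Pool.Agent.Helper97.Ku.PkKC

open Set

theorem val_exF (G : Grd Om) (f : ℕ) (a : SO) (i : ℕ → Om) (e : ℕ → FN Om BA) :
    (SO.exF f a).val (M0 G BA) i e = ⨆ x, a.val (M0 G BA) i (Function.update e f x) := by
  show (⨅ x, (a.val (M0 G BA) i (Function.update e f x))ᶜ)ᶜ = _
  rw [compl_iInf]
  simp only [compl_compl]

theorem val_kur (h1 : G_SYN1) (G : Grd Om) (i : ℕ → Om) (e : ℕ → FN Om BA) :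
    SO.kur.val (M0 G BA) i e =
      (⨆ ht, SO.reg.val (M0 G BA) i (Function.update e 1 ht)) ⊓
      ⨅ z : FN Om BA, ⨆ b : FN Om BA, (brFV G (e 0) b ⊓ (lstV G z b)ᶜ) := by
  show (SO.exF 1 SO.reg).val (M0 G BA) i e ⊓
    (⨅ z, (SO.exF 3 (.and SO.br (.neg SO.lst))).val (M0 G BA) i (Function.update e 2 z)) = _
  rw [val_exF]
  congr 1
  refine iInf_congr fun z => ?_
  rw [val_exF]
  refine iSup_congr fun b => ?_
  show SO.br.val (M0 G BA) i (Function.update (Function.update e 2 z) 3 b) ⊓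
    (SO.lst.val (M0 G BA) i (Function.update (Function.update e 2 z) 3 b))ᶜ = _
  rw [(h1 G i _).2.1, (h1 G i _).2.2.1]
  simp [Function.update]

theorem chr_c1 (G : Grd Om) (a : Om → BA) (m : Om) : (chr G a).v m G.c1 = a m := by
  have h01 : G.c1 ≠ G.c0 := fun h => by
    have := (G.lt_c1 G.c0).mpr rfl
    rw [h] at this
    exact lt_irrefl _ this
  show (bo (G.c1 = G.c1) ⊓ a m) ⊔ (bo (G.c1 = G.c0) ⊓ (a m)ᶜ) = a m
  rw [bo_true rfl, bo_false h01, top_inf_eq, bot_inf_eq, sup_bot_eq]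

theorem eqf_le (x y : FN Om BA) (n j : Om) : x.eqf y ⊓ x.v n j ≤ y.v n j := by
  refine le_trans (inf_le_inf_right _ (iInf_le _ n)) ?_
  unfold FN.eqAt
  rw [iSup_inf_eq]
  refine iSup_le fun k => ?_
  by_cases hk : k = j
  · rw [hk]
    exact le_trans inf_le_left inf_le_right
  · have h := x.fn n k j hk
    refine le_trans (le_inf (le_trans inf_le_left inf_le_left) inf_le_right) ?_
    rw [h]
    exact bot_le

theorem ext_A (G : Grd Om) (ht : FN Om BA) (δ : Om) :
    FN.Ext (fun x : FN Om BA => ⨅ j, (ht.v j δ ⇨ ⨆ n, (bo (n < G.w0) ⊓ x.v n j))) := by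
  intro x y
  refine le_iInf fun j => ?_
  rw [le_himp_iff]
  have h1 : x.eqf y ⊓ (⨅ j, (ht.v j δ ⇨ ⨆ n, (bo (n < G.w0) ⊓ x.v n j))) ⊓ ht.v j δ ≤
      x.eqf y ⊓ ⨆ n, (bo (n < G.w0) ⊓ x.v n j) := by
    refine le_inf (le_trans inf_le_left inf_le_left) ?_
    refine le_trans (inf_le_inf_right _ inf_le_right) ?_
    refine le_trans (inf_le_inf_right _ (iInf_le _ j)) ?_
    exact himp_inf_le
  refine le_trans h1 ?_
  rw [inf_iSup_eq]
  refine iSup_mono fun n => ?_
  refine le_inf (le_trans inf_le_right inf_le_left) ?_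
  exact le_trans (inf_le_inf_left _ inf_le_right) (eqf_le x y n j)

theorem kc (h1 : G_SYN1) (h2 : G_SYN2) (hF : G_FNF.{1}) (hf : G_FWD) (hb : G_BWD) : G_KC := by
  intro G i e he
  have hne : Nonempty Om := ⟨G.c0⟩
  rw [val_kur h1]
  have hr : (SO.exs [1, 8, 2, 3] (.and SO.regU SO.cf)).val (M0 G BA) i e =
      ⨆ ht, ⨆ en, ⨆ E, ⨆ L, (SO.regU.val (M0 G BA) i
        (Function.update (Function.update (Function.update (Function.update e 1 ht) 8 en) 2 E)
          3 L) ⊓ SO.cf.val (M0 G BA) i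
        (Function.update (Function.update (Function.update (Function.update e 1 ht) 8 en) 2 E)
          3 L)) := by
    show (SO.exF 1 (SO.exF 8 (SO.exF 2 (SO.exF 3 (.and SO.regU SO.cf))))).val (M0 G BA) i e = _
    simp only [val_exF]
    rfl
  rw [hr]
  apply le_antisymm
  · intro p hp
    refine RO.dense fun q hq => ?_
    have hq' := RO.lower hq hp
    obtain ⟨hq1, hq2⟩ := RO.mem_inf.1 hq'
    obtain ⟨p1, hp1, ht, hreg⟩ := RO.mem_iSup.1 hq1 q le_rfl
    have hT := ((h1 G i _).1 p1).1 hreg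
    have hT0 : TreeF G p1 (e 0) ht := by simpa [Function.update] using hT
    have hex : ∀ δ, ∃ x : FN Om BA,
        (⨅ j, (ht.v j δ ⇨ ⨆ n, (bo (n < G.w0) ⊓ x.v n j)) : BA) =
        ⨆ x : FN Om BA, ⨅ j, (ht.v j δ ⇨ ⨆ n, (bo (n < G.w0) ⊓ x.v n j)) := fun δ =>
      (hF Om BA _ (ext_A G ht δ)).1
    choose en hen using hex
    have hEn : EnF G p1 ht en := by
      intro δ j
      have h3 := hT0.cnt δ
      rw [← hen δ] at h3
      exact RO.mem_iInf.1 h3 j
    have hF1 := hf G (e 0) ht en p1 hT0 hEn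
      (fun z => RO.mem_iInf.1 (RO.lower hp1 hq2) z)
    obtain ⟨p2, hp2, E, hE⟩ := RO.mem_iSup.1 hF1 p1 le_rfl
    obtain ⟨p3, hp3, Lx, hL⟩ := RO.mem_iSup.1 hE p2 le_rfl
    refine ⟨p3, hp3.trans (hp2.trans hp1), ?_⟩
    have hle : p3 ≤ p1 := hp3.trans hp2
    set E' : FN Om BA := chr G (fun m => E (G.pi.symm (G.pi.symm m).1).1
      (G.pi.symm (G.pi.symm m).1).2 (G.pi.symm m).2) with hE'
    set L' : FN Om BA := chr G (fun m => Lx (G.pi.symm m).1 (G.pi.symm m).2) with hL'
    set e' := Function.update (Function.update (Function.update (Function.update e 1 ht) 8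
      (cod G en)) 2 E') 3 L' with he'
    have e0 : e' 0 = e 0 := by simp [he', Function.update]
    have e1 : e' 1 = ht := by simp [he', Function.update]
    have e2 : e' 2 = E' := by simp [he', Function.update]
    have e3 : e' 3 = L' := by simp [he', Function.update]
    have e4 : e' 4 = tFN G := by rw [← he]; simp [he', Function.update]
    have e8 : e' 8 = cod G en := by simp [he', Function.update]
    have hreg' : p3 ∈ SO.regU.val (M0 G BA) i e' := by
      rw [(h1 G i e').2.2.2 p3, e0, e1, e8]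
      refine ⟨?_, fun δ j => ?_⟩
      · have := ((h1 G i _).1 p3).1 (RO.lower hle hreg)
        simpa [Function.update] using this
      · have h3 := RO.lower hle (hEn δ j)
        have h4 : ∀ n, (cod G en).v (G.pi (δ, n)) j = (en δ).v n j := fun n => by
          show (en (G.pi.symm (G.pi (δ, n))).1).v (G.pi.symm (G.pi (δ, n))).2 j = _
          rw [Equiv.symm_apply_apply]
        simp only [h4]
        exact h3
    have hcf : p3 ∈ SO.cf.val (M0 G BA) i e' := by
      rw [h2 G i e' e4, e0, e1, e2, e3]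
      have h5 : (fun γ k n => E'.v (G.pi (G.pi (γ, k), n)) G.c1) = E := by
        funext γ k n
        rw [hE', chr_c1]
        simp
      have h6 : (fun ν β => L'.v (G.pi (ν, β)) G.c1) = Lx := by
        funext ν β
        rw [hL', chr_c1]
        simp
      rw [h5, h6]
      exact hL
    have hfin : SO.regU.val (M0 G BA) i e' ⊓ SO.cf.val (M0 G BA) i e' ≤
      ⨆ ht, ⨆ en, ⨆ E, ⨆ L, (SO.regU.val (M0 G BA) i
        (Function.update (Function.update (Function.update (Function.update e 1 ht) 8 en) 2 E)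
          3 L) ⊓ SO.cf.val (M0 G BA) i
        (Function.update (Function.update (Function.update (Function.update e 1 ht) 8 en) 2 E)
          3 L)) :=
      le_iSup_of_le ht (le_iSup_of_le (cod G en) (le_iSup_of_le E' (le_iSup_of_le L' le_rfl)))
    exact hfin p3 (RO.mem_inf.2 ⟨hreg', hcf⟩)
  · intro p hp
    refine RO.dense fun q hq => ?_
    obtain ⟨r1, hr1, ht, k1⟩ := RO.mem_iSup.1 hp q hq
    obtain ⟨r2, hr2, en, k2⟩ := RO.mem_iSup.1 k1 r1 le_rfl
    obtain ⟨r3, hr3, E, k3⟩ := RO.mem_iSup.1 k2 r2 le_rfl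
    obtain ⟨r4, hr4, L, k4⟩ := RO.mem_iSup.1 k3 r3 le_rfl
    obtain ⟨kreg, kcf⟩ := RO.mem_inf.1 k4
    set e' := Function.update (Function.update (Function.update (Function.update e 1 ht) 8
      en) 2 E) 3 L with he'
    have e0 : e' 0 = e 0 := by simp [he', Function.update]
    have e1 : e' 1 = ht := by simp [he', Function.update]
    have e4 : e' 4 = tFN G := by rw [← he]; simp [he', Function.update]
    rw [h2 G i e' e4] at kcf
    obtain ⟨r5, hr5, γ0, k5⟩ := RO.mem_iSup.1 kcf r4 le_rfl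
    obtain ⟨r6, hr6, k0, k6⟩ := RO.mem_iSup.1 k5 r5 le_rfl
    obtain ⟨kb, kc⟩ := RO.mem_inf.1 k6
    have hk0 : k0 < G.w0 := by
      by_contra hn
      rw [bo_false hn] at kb
      exact RO.not_mem_bot _ kb
    have hle : r6 ≤ r4 := hr6.trans hr5
    have hT := (((h1 G i e').2.2.2 r6).1 (RO.lower hle kreg)).1
    rw [e0, e1] at hT
    rw [e0, e1] at kc
    refine ⟨r6, hle.trans (hr4.trans (hr3.trans (hr2.trans hr1))), RO.mem_inf.2 ⟨?_, ?_⟩⟩
    · have h7 : r6 ∈ SO.reg.val (M0 G BA) i (Function.update e 1 ht) := by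
        rw [(h1 G i _).1 r6]
        simpa [Function.update] using hT
      exact le_iSup (fun ht => SO.reg.val (M0 G BA) i (Function.update e 1 ht)) ht r6 h7
    · rw [RO.mem_iInf]
      exact hb G (e 0) ht _ _ γ0 k0 r6 hT hk0 kc

end Pool.Agent.Helper97.Ku.PkKC
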